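import Pool.Agent.helper66.LE.Defs2

/-!
# lf:MS  the infinite product measure
-/

open Finset Classical MeasureTheory Filter Topology

namespace Pool.Agent.helper66.LE

section MS
variable {d : ℕ} {p : ℝ}

/-! ### the lattice graph -/

theorem MS_sum_single (i : Fin d) (a : ℤ) : ∑ j, |(Pi.single i a : Fin d → ℤ) j| = |a| := by
  rw [Finset.sum_eq_single i]
  · simp
  · intro j _ hj
    simp [Pi.single_eq_of_ne hj]
  · intro h
    exact absurd (Finset.mem_univ i) h

theorem MS_adj_def {x y : Fin d → ℤ} : (zd d).Adj x y ↔ ∑ j, |x j - y j| = 1 := Iff.rfl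

theorem MS_adj_single (x : Fin d → ℤ) (i : Fin d) {a : ℤ} (ha : |a| = 1) :
    (zd d).Adj x (x + Pi.single i a) := by
  rw [MS_adj_def]
  have : ∀ j, |x j - (x + Pi.single i a : Fin d → ℤ) j| = |(Pi.single i a : Fin d → ℤ) j| := by
    intro j
    rw [Pi.add_apply, sub_add_cancel_left, abs_neg]
  simp only [this, MS_sum_single, ha]

theorem MS_uv {s : Fin d → ℤ} (hs : s ∈ uv d ℤ) : ∃ i a, |a| = (1 : ℤ) ∧ s = Pi.single i a := by
  simp only [uv, Finset.mem_image, Finset.mem_univ, true_and] at hs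
  obtain ⟨⟨i, b⟩, rfl⟩ := hs
  refine ⟨i, _, ?_, rfl⟩
  cases b <;> simp

theorem zE_subset (Λ : Finset (Fin d → ℤ)) : ∀ e ∈ zE d Λ, e ∈ (zd d).edgeSet := by
  intro e he
  simp only [zE, Finset.mem_image, Finset.mem_filter, Finset.mem_product] at he
  obtain ⟨⟨x, s⟩, ⟨⟨_, hs⟩, _⟩, rfl⟩ := he
  obtain ⟨i, a, ha, rfl⟩ := MS_uv hs
  exact MS_adj_single x i ha

/-- adjacent vertices of the lattice differ by a unit vector. -/
theorem MS_adj_iff {x y : Fin d → ℤ} : (zd d).Adj x y ↔ y - x ∈ uv d ℤ := by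
  constructor
  · intro h
    have h' := MS_adj_def.mp h
    have hex : ∃ i, x i - y i ≠ 0 := by
      by_contra hne
      push Not at hne
      simp [hne] at h'
    obtain ⟨i, hi⟩ := hex
    have h1 : 1 ≤ |x i - y i| := Int.one_le_abs hi
    have hrest : ∀ j, j ≠ i → x j - y j = 0 := by
      intro j hj
      by_contra hj0
      have h2 : 1 ≤ |x j - y j| := Int.one_le_abs hj0
      have h3 : |x i - y i| + |x j - y j| ≤ ∑ k, |x k - y k| := by
        rw [← Finset.sum_pair (f := fun k => |x k - y k|) (Ne.symm hj)]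
        exact Finset.sum_le_sum_of_subset_of_nonneg (Finset.subset_univ _) fun _ _ _ => abs_nonneg _
      omega
    have h4 : ∑ k, |x k - y k| = |x i - y i| := by
      rw [Finset.sum_eq_single i]
      · intro j _ hj
        rw [hrest j hj, abs_zero]
      · intro h; exact absurd (Finset.mem_univ i) h
    have h5 : |x i - y i| = 1 := by rw [← h4]; exact h'
    simp only [uv, Finset.mem_image, Finset.mem_univ, true_and]
    refine ⟨(i, decide (y i - x i = 1)), ?_⟩
    funext j
    by_cases hj : j = i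
    · subst hj
      rw [Pi.single_eq_same, Pi.sub_apply]
      rcases (abs_eq (by norm_num : (0 : ℤ) ≤ 1)).mp h5 with h6 | h6
      · have : y j - x j = -1 := by omega
        rw [this]; simp
      · have : y j - x j = 1 := by omega
        rw [this]; simp
    · rw [Pi.single_eq_of_ne hj, Pi.sub_apply]
      have := hrest j hj
      omega
  · intro h
    obtain ⟨i, a, ha, hs⟩ := MS_uv h
    have : y = x + Pi.single i a := by rw [← hs]; abel
    rw [this]
    exact MS_adj_single x i ha

theorem MS_mem_zE {Λ : Finset (Fin d → ℤ)} {x y : Fin d → ℤ} (hx : x ∈ Λ) (hy : y ∈ Λ)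
    (h : (zd d).Adj x y) : s(x, y) ∈ zE d Λ := by
  simp only [zE, Finset.mem_image, Finset.mem_filter, Finset.mem_product]
  refine ⟨(x, y - x), ⟨⟨hx, MS_adj_iff.mp h⟩, ?_⟩, ?_⟩
  · simpa using hy
  · simp

theorem MS_walk_single (x : Fin d → ℤ) (i : Fin d) (n : ℕ) :
    ∃ γ : (zd d).Walk x (x + Pi.single i (n : ℤ)), γ.length = n := by
  induction n with
  | zero =>
    have h : x = x + Pi.single i ((0 : ℕ) : ℤ) := by simp
    refine ⟨(SimpleGraph.Walk.nil : (zd d).Walk x x).copy rfl h, by simp⟩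
  | succ n ih =>
    obtain ⟨γ, hγ⟩ := ih
    have h : (zd d).Adj (x + Pi.single i (n : ℤ)) (x + Pi.single i ((n + 1 : ℕ) : ℤ)) := by
      have h1 := MS_adj_single (x + Pi.single i (n : ℤ)) i (a := 1) (by simp)
      have h2 : x + Pi.single i (n : ℤ) + Pi.single i 1 = x + Pi.single i ((n + 1 : ℕ) : ℤ) := by
        rw [add_assoc, ← Pi.single_add]
        push_cast
        rfl
      rwa [h2] at h1
    exact ⟨γ.concat h, by rw [SimpleGraph.Walk.length_concat, hγ]⟩

theorem MS_reach_single (x : Fin d → ℤ) (i : Fin d) (a : ℤ) : (zd d).Reachable x (x + Pi.single i a) := by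
  obtain ⟨n, rfl | rfl⟩ := Int.eq_nat_or_neg a
  · exact ⟨(MS_walk_single x i n).choose⟩
  · have h := (MS_walk_single (x + Pi.single i (-(n : ℤ))) i n).choose
    have h2 : x + Pi.single i (-(n : ℤ)) + Pi.single i (n : ℤ) = x := by
      rw [add_assoc, ← Pi.single_add]; simp
    rw [h2] at h
    exact ⟨h.reverse⟩

theorem MS_reach (x y : Fin d → ℤ) : (zd d).Reachable x y := by
  have key : ∀ s : Finset (Fin d), (zd d).Reachable x (x + ∑ i ∈ s, Pi.single i (y i - x i)) := by
    intro s
    induction s using Finset.induction_on with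
    | empty => simp
    | insert i s hi ih =>
      rw [Finset.sum_insert hi, add_comm (Pi.single i _), ← add_assoc]
      exact ih.trans (MS_reach_single _ _ _)
  have h := key Finset.univ
  have h2 : x + ∑ i, Pi.single i (y i - x i) = y := by
    have := Finset.univ_sum_single (fun i => y i - x i)
    rw [this]
    funext i
    simp
  rwa [h2] at h

instance MS_nonempty_walk (x y : Fin d → ℤ) : Nonempty ((zd d).Walk x y) := MS_reach x y

instance MS_countable_walk (x y : Fin d → ℤ) : Countable ((zd d).Walk x y) := by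
  have : Function.Injective (fun γ : (zd d).Walk x y => γ.support) := fun p q h =>
    SimpleGraph.Walk.ext_support h
  exact this.countable

/-! ### lengths -/

theorem MS_len_cons (ω : Env d) {x y z : Fin d → ℤ} (h : (zd d).Adj x y) (γ : (zd d).Walk y z) :
    len ω (SimpleGraph.Walk.cons h γ) = ω ⟨s(x, y), h⟩ + len ω γ := by
  simp only [len, SimpleGraph.Walk.darts_cons, List.map_cons, List.sum_cons]
  rfl

theorem MS_len_nil (ω : Env d) (x : Fin d → ℤ) : len ω (SimpleGraph.Walk.nil : (zd d).Walk x x) = 0 := by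
  simp [len]

theorem MS_len_nonneg {ω : Env d} (hω : ∀ e, 0 ≤ ω e) {x y : Fin d → ℤ} (γ : (zd d).Walk x y) :
    0 ≤ len ω γ := by
  induction γ with
  | nil => rw [MS_len_nil]
  | cons h γ ih => rw [MS_len_cons]; exact add_nonneg (hω _) ih

theorem MS_len_append (ω : Env d) {x y z : Fin d → ℤ} (γ : (zd d).Walk x y) (δ : (zd d).Walk y z) :
    len ω (γ.append δ) = len ω γ + len ω δ := by
  simp [len, SimpleGraph.Walk.darts_append]

theorem MS_len_le_length {ω : Env d} (hω : ∀ e, ω e ≤ 1) {x y : Fin d → ℤ} (γ : (zd d).Walk x y) :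
    len ω γ ≤ γ.length := by
  induction γ with
  | nil => rw [MS_len_nil]; simp
  | cons h γ ih =>
    rw [MS_len_cons, SimpleGraph.Walk.length_cons]
    push_cast
    have := hω ⟨s(_, _), h⟩
    linarith

theorem MS_len_eq {ω : Env d} (hω : ∀ e, ω e = 0 ∨ ω e = 1) (E : Finset (Sym2 (Fin d → ℤ)))
    {x y : Fin d → ℤ} (γ : (zd d).Walk x y) (hE : ∀ e ∈ γ.edges, e ∈ E) (q : Sym2 (Fin d → ℤ) → Bool)
    (hq : ∀ e, q e = true ↔ e ∉ opn ω E) :
    len ω γ = (γ.edges.countP q : ℕ) := by
  induction γ with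
  | nil => rw [MS_len_nil]; simp
  | @cons u v w h γ ih =>
    rw [MS_len_cons, SimpleGraph.Walk.edges_cons, List.countP_cons]
    simp only [SimpleGraph.Walk.edges_cons, List.mem_cons, forall_eq_or_imp] at hE
    rw [ih hE.2]
    push_cast
    have hiff : (s(u, v) ∉ opn ω E) ↔ ω ⟨s(u, v), h⟩ = 1 := by
      simp only [opn, Finset.mem_filter, hE.1, true_and, not_exists]
      constructor
      · intro h2
        exact (hω ⟨s(u, v), h⟩).resolve_left (h2 h)
      · intro h2 h3
        rw [h2]
        norm_num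
    by_cases h1 : ω ⟨s(u, v), h⟩ = 1
    · rw [if_pos ((hq _).mpr (hiff.mpr h1)), h1]; ring
    · rw [if_neg (fun h2 => h1 (hiff.mp ((hq _).mp h2))), (hω _).resolve_right h1]; ring

/-- the definition of `PT` with an arbitrary test for closed edges. -/
theorem MS_PT_iff {V : Type*} {E F : Finset (Sym2 V)} {k : ℕ} {x y : V} (q : Sym2 V → Bool)
    (hq : ∀ e, q e = true ↔ e ∉ F) :
    PT E F k x y ↔ ∃ γ : (SimpleGraph.fromEdgeSet (E : Set (Sym2 V))).Walk x y, γ.edges.countP q ≤ k := by
  have h : q = fun e => decide (e ∉ F) := by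
    funext e
    rw [Bool.eq_iff_iff, hq e]
    simp
  subst h
  rfl

theorem MS_T_le_len {ω : Env d} (hω : ∀ e, 0 ≤ ω e) {x y : Fin d → ℤ} (γ : (zd d).Walk x y) :
    T ω x y ≤ len ω γ :=
  ciInf_le ⟨0, by rintro _ ⟨δ, rfl⟩; exact MS_len_nonneg hω δ⟩ γ

theorem MS_T_triangle {ω : Env d} (hω : ∀ e, 0 ≤ ω e) (x y z : Fin d → ℤ) :
    T ω x z ≤ T ω x y + T ω y z := by
  refine le_of_forall_pos_le_add fun ε hε => ?_
  obtain ⟨γ, hγ⟩ := exists_lt_of_ciInf_lt (show T ω x y < T ω x y + ε / 2 by linarith)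
  obtain ⟨δ, hδ⟩ := exists_lt_of_ciInf_lt (show T ω y z < T ω y z + ε / 2 by linarith)
  have := MS_T_le_len hω (γ.append δ)
  rw [MS_len_append] at this
  linarith

theorem bern_prob (h0 : 0 ≤ p) (h1 : p ≤ 1) : IsProbabilityMeasure (bern p) := by
  constructor
  simp only [bern, Measure.coe_add, Measure.coe_smul, Pi.add_apply, Pi.smul_apply, measure_univ, smul_eq_mul,
    mul_one]
  rw [← ENNReal.ofReal_add (by linarith) h0]
  simp

theorem law_prob (h0 : 0 ≤ p) (h1 : p ≤ 1) : IsProbabilityMeasure (law d p) := by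
  have := bern_prob h0 h1
  unfold law
  infer_instance

theorem MS_bern_zero : bern p {0} = ENNReal.ofReal (1 - p) := by
  simp [bern, Measure.dirac_apply']

theorem MS_bern_compl : bern p {0}ᶜ = ENNReal.ofReal p := by
  simp [bern, Measure.dirac_apply']

theorem MS_law_eq (h0 : 0 ≤ p) (h1 : p ≤ 1) (Λ : Finset (Fin d → ℤ)) (F : Finset (Sym2 (Fin d → ℤ)))
    (hF : F ⊆ zE d Λ) :
    law d p {ω | opn ω (zE d Λ) = F} = ENNReal.ofReal (wt (1 - p) (zE d Λ) F) ∧
      MeasurableSet {ω : Env d | opn ω (zE d Λ) = F} := by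
  have := bern_prob h0 h1
  set E' : Finset (zd d).edgeSet := (zE d Λ).subtype (· ∈ (zd d).edgeSet) with hE'
  have hset : {ω : Env d | opn ω (zE d Λ) = F} =
      Set.pi (E' : Set (zd d).edgeSet) (fun e => if (e : Sym2 (Fin d → ℤ)) ∈ F then {0} else {0}ᶜ) := by
    ext ω
    simp only [Set.mem_ofPred_eq, Set.mem_pi, Finset.mem_coe]
    constructor
    · rintro h ⟨e, he⟩ heE
      rw [hE', Finset.mem_subtype] at heE
      simp only at heE ⊢
      split_ifs with heF
      · rw [← h] at heF
        simp only [opn, Finset.mem_filter] at heF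
        obtain ⟨_, _, h3⟩ := heF
        exact h3
      · rw [← h] at heF
        simp only [opn, Finset.mem_filter, not_and, not_exists] at heF
        exact heF heE he
    · intro h
      ext e
      constructor
      · intro he
        simp only [opn, Finset.mem_filter] at he
        obtain ⟨h1, h2, h3⟩ := he
        by_contra heF
        have := h ⟨e, h2⟩ (by rw [hE', Finset.mem_subtype]; exact h1)
        rw [if_neg heF] at this
        exact this h3
      · intro he
        have h2 := zE_subset Λ e (hF he)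
        simp only [opn, Finset.mem_filter]
        refine ⟨hF he, h2, ?_⟩
        have := h ⟨e, h2⟩ (by rw [hE', Finset.mem_subtype]; exact hF he)
        rw [if_pos he] at this
        exact this
  have hm : ∀ e : (zd d).edgeSet, MeasurableSet
      (if (e : Sym2 (Fin d → ℤ)) ∈ F then ({0} : Set ℝ) else {0}ᶜ) := by
    intro e
    split_ifs
    · exact measurableSet_singleton _
    · exact (measurableSet_singleton _).compl
  rw [hset]
  constructor
  · rw [law, Measure.infinitePi_pi _ (fun i _ => hm i)]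
    have h3 : ∀ e : (zd d).edgeSet, bern p (if (e : Sym2 (Fin d → ℤ)) ∈ F then ({0} : Set ℝ) else {0}ᶜ) =
        ENNReal.ofReal (if (e : Sym2 (Fin d → ℤ)) ∈ F then 1 - p else 1 - (1 - p)) := by
      intro e
      split_ifs
      · exact MS_bern_zero
      · rw [MS_bern_compl]; congr 1; ring
    simp only [h3]
    rw [Finset.prod_subtype_of_mem (fun e : Sym2 (Fin d → ℤ) =>
      ENNReal.ofReal (if e ∈ F then 1 - p else 1 - (1 - p))) (zE_subset Λ), wt,
      ENNReal.ofReal_prod_of_nonneg (fun e _ => by split_ifs <;> linarith)]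
    exact Finset.prod_congr rfl fun e _ => by congr
  · exact MeasurableSet.pi (Finset.countable_toSet _) fun e _ => hm e

theorem law_opn (h0 : 0 ≤ p) (h1 : p ≤ 1) (Λ : Finset (Fin d → ℤ)) (A : Finset (Sym2 (Fin d → ℤ)) → Prop) :
    law d p {ω | A (opn ω (zE d Λ))} = ENNReal.ofReal (Pr (1 - p) (zE d Λ) A) ∧
      MeasurableSet {ω : Env d | A (opn ω (zE d Λ))} := by
  have hset : {ω : Env d | A (opn ω (zE d Λ))} =
      ⋃ F ∈ (zE d Λ).powerset.filter A, {ω : Env d | opn ω (zE d Λ) = F} := by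
    ext ω
    simp only [Set.mem_ofPred_eq, Set.mem_iUnion, Finset.mem_filter, Finset.mem_powerset, exists_prop]
    constructor
    · intro h
      exact ⟨_, ⟨Finset.filter_subset _ _, h⟩, rfl⟩
    · rintro ⟨F, ⟨_, h⟩, h2⟩
      rwa [h2]
  rw [hset]
  constructor
  · rw [measure_biUnion_finset]
    · have h2 : ∀ F ∈ (zE d Λ).powerset.filter A, law d p {ω | opn ω (zE d Λ) = F} =
          ENNReal.ofReal (wt (1 - p) (zE d Λ) F) := by
        intro F hF
        rw [Finset.mem_filter, Finset.mem_powerset] at hF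
        exact (MS_law_eq h0 h1 Λ F hF.1).1
      rw [Finset.sum_congr rfl h2, ← ENNReal.ofReal_sum_of_nonneg
        (fun F _ => wt_nonneg (by linarith) (by linarith) _ _)]
      congr 1
      rw [Pr, Ex, Finset.sum_filter]
      refine Finset.sum_congr rfl fun F _ => ?_
      split_ifs <;> simp
    · intro F _ F' _ hne
      simp only [Function.onFun]
      rw [Set.disjoint_left]
      intro ω h h'
      exact hne (h.symm.trans h')
    · intro F hF
      rw [Finset.mem_filter, Finset.mem_powerset] at hF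
      exact (MS_law_eq h0 h1 Λ F hF.1).2
  · refine Finset.measurableSet_biUnion _ fun F hF => ?_
    rw [Finset.mem_filter, Finset.mem_powerset] at hF
    exact (MS_law_eq h0 h1 Λ F hF.1).2

theorem ae_zero_one (h0 : 0 ≤ p) (h1 : p ≤ 1) : ∀ᵐ ω ∂(law d p), ∀ e, ω e = 0 ∨ ω e = 1 := by
  have := bern_prob h0 h1
  rw [ae_all_iff]
  intro e
  have hb : ∀ᵐ x ∂(bern p), x = 0 ∨ x = 1 := by
    rw [bern, ae_add_measure_iff]
    constructor
    · refine Measure.ae_smul_measure ?_ _
      rw [ae_dirac_iff (by measurability)]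
      left; rfl
    · refine Measure.ae_smul_measure ?_ _
      rw [ae_dirac_iff (by measurability)]
      right; rfl
  exact (measurePreserving_eval_infinitePi (fun _ : (zd d).edgeSet => bern p) e).quasiMeasurePreserving.ae hb

theorem T_nonneg {ω : Env d} (hω : ∀ e, ω e = 0 ∨ ω e = 1) (x y : Fin d → ℤ) : 0 ≤ T ω x y := by
  refine Real.iInf_nonneg fun γ => MS_len_nonneg (fun e => ?_) γ
  rcases hω e with h | h <;> rw [h]
  norm_num

theorem MS_support_box {x y : Fin d → ℤ} (γ : (zd d).Walk x y) :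
    ∃ n, ∀ v ∈ γ.support, v ∈ box d n := by
  have h : ∀ v : Fin d → ℤ, ∃ n : ℕ, v ∈ box d n := by
    intro v
    refine ⟨∑ i, (v i).natAbs, ?_⟩
    rw [box, Fintype.mem_piFinset]
    intro i
    rw [Finset.mem_Icc]
    have h1 : (v i).natAbs ≤ ∑ i, (v i).natAbs :=
      Finset.single_le_sum (f := fun i => (v i).natAbs) (fun _ _ => Nat.zero_le _) (Finset.mem_univ i)
    omega
  have hmono : ∀ n m : ℕ, n ≤ m → box d n ⊆ box d m := by
    intro n m hnm v hv
    rw [box, Fintype.mem_piFinset] at hv ⊢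
    intro i
    have := hv i
    rw [Finset.mem_Icc] at this ⊢
    omega
  have key : ∀ l : List (Fin d → ℤ), ∃ n, ∀ v ∈ l, v ∈ box d n := by
    intro l
    induction l with
    | nil => exact ⟨0, by simp⟩
    | cons a l ih =>
      obtain ⟨n, hn⟩ := ih
      obtain ⟨m, hm⟩ := h a
      refine ⟨max n m, ?_⟩
      intro v hv
      rw [List.mem_cons] at hv
      rcases hv with rfl | hv
      · exact hmono _ _ (le_max_right _ _) hm
      · exact hmono _ _ (le_max_left _ _) (hn v hv)
  exact key _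

theorem MS_edges_zE {x y : Fin d → ℤ} (γ : (zd d).Walk x y) {Λ : Finset (Fin d → ℤ)}
    (h : ∀ v ∈ γ.support, v ∈ Λ) : ∀ e ∈ γ.edges, e ∈ zE d Λ := by
  intro e he
  induction e using Sym2.ind with
  | _ u v =>
    exact MS_mem_zE (h u (γ.fst_mem_support_of_mem_edges he)) (h v (γ.snd_mem_support_of_mem_edges he))
      (γ.adj_of_mem_edges he)

theorem T_lt_iff {ω : Env d} (hω : ∀ e, ω e = 0 ∨ ω e = 1) (x y : Fin d → ℤ) (k : ℕ) :
    T ω x y < k + 1 ↔ ∃ n, PT (zE d (box d n)) (opn ω (zE d (box d n))) k x y := by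
  constructor
  · intro h
    obtain ⟨γ, hγ⟩ := exists_lt_of_ciInf_lt h
    obtain ⟨n, hn⟩ := MS_support_box γ
    have hE := MS_edges_zE γ hn
    refine ⟨n, ?_⟩
    generalize zE d (box d n) = E at hE ⊢
    obtain ⟨q, hq⟩ : ∃ q : Sym2 (Fin d → ℤ) → Bool, ∀ e, q e = true ↔ e ∉ opn ω E :=
      ⟨fun e => decide (e ∉ opn ω E), fun e => decide_eq_true_iff⟩
    rw [MS_PT_iff q hq]
    have hq' : ∀ e ∈ γ.edges, e ∈ (SimpleGraph.fromEdgeSet (E : Set (Sym2 (Fin d → ℤ)))).edgeSet := by
      intro e he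
      rw [SimpleGraph.edgeSet_fromEdgeSet]
      exact ⟨hE e he, (zd d).not_isDiag_of_mem_edgeSet (γ.edges_subset_edgeSet he)⟩
    refine ⟨γ.transfer _ hq', ?_⟩
    rw [SimpleGraph.Walk.edges_transfer]
    rw [MS_len_eq hω _ γ hE q hq] at hγ
    have h5 : γ.edges.countP q < k + 1 := by exact_mod_cast hγ
    exact Nat.lt_succ_iff.mp h5
  · rintro ⟨n, hn⟩
    have hsub0 := zE_subset (box d n)
    generalize zE d (box d n) = E at hn hsub0
    obtain ⟨q, hq⟩ : ∃ q : Sym2 (Fin d → ℤ) → Bool, ∀ e, q e = true ↔ e ∉ opn ω E :=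
      ⟨fun e => decide (e ∉ opn ω E), fun e => decide_eq_true_iff⟩
    rw [MS_PT_iff q hq] at hn
    obtain ⟨γ, hγ⟩ := hn
    have hsub : ∀ e ∈ γ.edges, e ∈ E := by
      intro e he
      have := γ.edges_subset_edgeSet he
      rw [SimpleGraph.edgeSet_fromEdgeSet] at this
      exact this.1
    have h2 : ∀ e ∈ γ.edges, e ∈ (zd d).edgeSet := fun e he => hsub0 e (hsub e he)
    have h3 := MS_T_le_len (ω := ω) (fun e => by rcases hω e with h | h <;> rw [h]; norm_num)
      (γ.transfer (zd d) h2)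
    rw [MS_len_eq hω E _ (by rw [SimpleGraph.Walk.edges_transfer]; exact hsub) q hq,
      SimpleGraph.Walk.edges_transfer] at h3
    exact lt_of_le_of_lt (h3.trans (Nat.cast_le.mpr hγ)) (by linarith)

theorem MS_measurable_len {x y : Fin d → ℤ} (γ : (zd d).Walk x y) : Measurable (fun ω : Env d => len ω γ) := by
  induction γ with
  | nil => simp only [MS_len_nil]; exact measurable_const
  | cons h γ ih =>
    simp only [MS_len_cons]
    exact (measurable_pi_apply _).add ih

theorem measurable_T (x y : Fin d → ℤ) : Measurable (fun ω : Env d => T ω x y) := by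
  unfold T
  exact Measurable.iInf fun γ => MS_measurable_len γ

end MS

end Pool.Agent.helper66.LE
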