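import Mathlib

/-!
# lf:KA  Kingman's theorem for bounded increments (abstract, lower bound)
-/

open Finset Classical MeasureTheory Filter Topology

namespace Pool.Agent.helper66.LE

section KA

/-- boundedness of the normalised sequence -/
lemma KA_bdd {u : ℕ → ℝ} (h : ∀ n, 0 ≤ u n ∧ u n ≤ n) :
    (∀ n : ℕ, 0 ≤ u n / n) ∧ (∀ n : ℕ, u n / n ≤ 1) := by
  refine ⟨fun n => div_nonneg (h n).1 (Nat.cast_nonneg n), fun n => ?_⟩
  rcases Nat.eq_zero_or_pos n with rfl | hn
  · simp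
  · have : (0 : ℝ) < n := by exact_mod_cast hn
    rw [div_le_one this]
    exact (h n).2

lemma KA_bd_ge {u : ℕ → ℝ} (h : ∀ n, 0 ≤ u n ∧ u n ≤ n) :
    IsBoundedUnder (· ≥ ·) atTop (fun n : ℕ => u n / n) :=
  isBoundedUnder_of ⟨0, fun n => (KA_bdd h).1 n⟩

lemma KA_bd_le {u : ℕ → ℝ} (h : ∀ n, 0 ≤ u n ∧ u n ≤ n) :
    IsBoundedUnder (· ≤ ·) atTop (fun n : ℕ => u n / n) :=
  isBoundedUnder_of ⟨1, fun n => (KA_bdd h).2 n⟩

lemma KA_liminf_mem {u : ℕ → ℝ} (h : ∀ n, 0 ≤ u n ∧ u n ≤ n) :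
    0 ≤ liminf (fun n : ℕ => u n / n) atTop ∧ liminf (fun n : ℕ => u n / n) atTop ≤ 1 := by
  constructor
  · exact le_liminf_of_le (KA_bd_le h).isCoboundedUnder_ge (Eventually.of_forall (KA_bdd h).1)
  · refine (liminf_le_limsup (KA_bd_le h) (KA_bd_ge h)).trans ?_
    exact limsup_le_of_le (KA_bd_ge h).isCoboundedUnder_le (Eventually.of_forall (KA_bdd h).2)

/-- one step: the lower limit does not decrease under the shift. -/
lemma KA_step {u v : ℕ → ℝ} (hu : ∀ n, 0 ≤ u n ∧ u n ≤ n) (hv : ∀ n, 0 ≤ v n ∧ v n ≤ n)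
    (h : ∀ n, u (n + 1) ≤ 1 + v n) :
    liminf (fun n : ℕ => u n / n) atTop ≤ liminf (fun n : ℕ => v n / n) atTop := by
  refine le_of_forall_lt_imp_le_of_dense ?_
  intro c hc
  obtain ⟨c', hcc', hc'⟩ := exists_between hc
  refine le_liminf_of_le (KA_bd_le hv).isCoboundedUnder_ge ?_
  have h1 : ∀ᶠ n : ℕ in atTop, c' < u n / n := eventually_lt_of_lt_liminf hc' (KA_bd_ge hu)
  have h2 : ∀ᶠ n : ℕ in atTop, c' < u (n + 1) / ((n + 1 : ℕ) : ℝ) :=
    (tendsto_add_atTop_nat 1).eventually h1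
  have h3 : ∀ᶠ n : ℕ in atTop, 1 / ((n : ℝ) + 1) < c' - c :=
    (tendsto_one_div_add_atTop_nhds_zero_nat).eventually (gt_mem_nhds (by linarith))
  filter_upwards [h2, h3, eventually_ge_atTop 1] with n h2 h3 hn
  have hn' : (0 : ℝ) < n := by exact_mod_cast hn
  push_cast at h2
  have h4 : u (n + 1) / ((n : ℝ) + 1) ≤ 1 / ((n : ℝ) + 1) + v n / n := by
    have e1 : u (n + 1) / ((n : ℝ) + 1) ≤ (1 + v n) / ((n : ℝ) + 1) :=
      div_le_div_of_nonneg_right (h n) (by positivity)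
    have e2 : v n / ((n : ℝ) + 1) ≤ v n / n :=
      div_le_div_of_nonneg_left (hv n).1 hn' (by linarith)
    rw [add_div] at e1
    linarith
  linarith

/-- combinatorial part of the argument of Katznelson and Weiss. -/
lemma KA_cover {Ω : Type*} (θ : Ω → Ω) (f : ℕ → Ω → ℝ) (G : Ω → Prop) (hGθ : ∀ ω, G ω → G (θ ω))
    (h0 : ∀ ω, G ω → ∀ n, 0 ≤ f n ω ∧ f n ω ≤ n)
    (hsub : ∀ ω, G ω → ∀ m n, f (m + n) ω ≤ f m ω + f n (θ^[m] ω))
    (h : Ω → ℝ) (h0' : ∀ ω, G ω → 0 ≤ h ω) (K : ℕ) 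
    (hstep : ∀ ω, G ω → ∃ m, 1 ≤ m ∧ m ≤ K ∧ f m ω ≤ ∑ j ∈ range m, h (θ^[j] ω)) :
    ∀ n ω, G ω → f n ω ≤ ∑ j ∈ range n, h (θ^[j] ω) + K := by
  have hGj : ∀ j ω, G ω → G (θ^[j] ω) := by
    intro j
    induction j with
    | zero => intro ω hω; exact hω
    | succ j ih => intro ω hω; rw [Function.iterate_succ_apply]; exact ih _ (hGθ _ hω)
  intro n
  induction n using Nat.strong_induction_on with
  | _ n ih =>
    intro ω hω
    have hnn : ∀ m, 0 ≤ ∑ j ∈ range m, h (θ^[j] ω) :=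
      fun m => Finset.sum_nonneg fun j _ => h0' _ (hGj j ω hω)
    rcases le_or_gt n K with hnK | hnK
    · have := (h0 ω hω n).2
      have h2 : (n : ℝ) ≤ K := by exact_mod_cast hnK
      linarith [hnn n]
    · obtain ⟨m, hm1, hmK, hm⟩ := hstep ω hω
      obtain ⟨k, rfl⟩ : ∃ k, n = m + k := ⟨n - m, by omega⟩
      have h1 := hsub ω hω m k
      have h2 := ih k (by omega) (θ^[m] ω) (hGj m ω hω)
      rw [Finset.sum_range_add]
      have h3 : ∑ j ∈ range k, h (θ^[j] (θ^[m] ω)) = ∑ x ∈ range k, h (θ^[m + x] ω) := by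
        refine Finset.sum_congr rfl fun j _ => ?_
        rw [← Function.iterate_add_apply, add_comm]
      rw [h3] at h2
      linarith

/-- Kingman's lower bound without the hypothesis `hinv`. -/
theorem KA_main {Ω : Type*} [MeasurableSpace Ω] (μ : Measure Ω) [IsProbabilityMeasure μ] (θ : Ω → Ω)
    (hθ : MeasurePreserving θ μ μ) (f : ℕ → Ω → ℝ) (hf : ∀ n, Measurable (f n))
    (h0 : ∀ᵐ ω ∂μ, ∀ n, 0 ≤ f n ω ∧ f n ω ≤ n)
    (hsub : ∀ᵐ ω ∂μ, ∀ m n, f (m + n) ω ≤ f m ω + f n (θ^[m] ω))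
    (γ : ℝ) (hγ : ∀ n : ℕ, γ * n ≤ ∫ ω, f n ω ∂μ)
    (hup : ∀ᵐ ω ∂μ, limsup (fun n : ℕ => f n ω / n) atTop ≤ γ) :
    ∀ᵐ ω ∂μ, Tendsto (fun n : ℕ => f n ω / n) atTop (𝓝 γ) := by
  -- the good set
  set G : Ω → Prop := fun ω => ∀ j, (∀ n, 0 ≤ f n (θ^[j] ω) ∧ f n (θ^[j] ω) ≤ n) ∧
      (∀ m n, f (m + n) (θ^[j] ω) ≤ f m (θ^[j] ω) + f n (θ^[m] (θ^[j] ω))) with hGdef
  have hG : ∀ᵐ ω ∂μ, G ω := by
    simp only [hGdef]
    rw [ae_all_iff]
    intro j
    exact (hθ.iterate j).quasiMeasurePreserving.ae (h0.and hsub)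
  have hGθ : ∀ ω, G ω → G (θ ω) := by
    intro ω hω j
    have := hω (j + 1)
    simp only [Function.iterate_succ_apply] at this
    exact this
  have hG0 : ∀ ω, G ω → ∀ n, 0 ≤ f n ω ∧ f n ω ≤ n := fun ω hω => (hω 0).1
  have hGs : ∀ ω, G ω → ∀ m n, f (m + n) ω ≤ f m ω + f n (θ^[m] ω) := fun ω hω => (hω 0).2
  have hGj : ∀ j ω, G ω → G (θ^[j] ω) := by
    intro j
    induction j with
    | zero => intro ω hω; exact hω
    | succ j ih => intro ω hω; rw [Function.iterate_succ_apply]; exact ih _ (hGθ _ hω)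
  set fm : Ω → ℝ := fun ω => liminf (fun n : ℕ => f n ω / n) atTop with hfm
  have hfm_meas : Measurable fm := Measurable.liminf (fun n => (hf n).div_const _)
  have hfm01 : ∀ ω, G ω → 0 ≤ fm ω ∧ fm ω ≤ 1 := fun ω hω => KA_liminf_mem (hG0 ω hω)
  have hfmθ : ∀ ω, G ω → fm ω ≤ fm (θ ω) := by
    intro ω hω
    refine KA_step (hG0 ω hω) (hG0 _ (hGθ ω hω)) fun n => ?_
    have h1 := hGs ω hω 1 n
    have h2 := (hG0 ω hω 1).2
    rw [add_comm 1 n] at h1
    simp only [Function.iterate_one] at h1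
    push_cast at h2
    linarith
  have hfmj : ∀ j ω, G ω → fm ω ≤ fm (θ^[j] ω) := by
    intro j
    induction j with
    | zero => intro ω _; exact le_rfl
    | succ j ih =>
      intro ω hω
      rw [Function.iterate_succ_apply]
      exact (hfmθ ω hω).trans (ih _ (hGθ ω hω))
  have hfm_int : Integrable fm μ := by
    refine Integrable.of_bound hfm_meas.aestronglyMeasurable 1 ?_
    filter_upwards [hG] with ω hω
    rw [Real.norm_eq_abs, abs_le]
    have := hfm01 ω hω
    constructor <;> linarith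
  -- main estimate
  have key : ∀ ε : ℝ, 0 < ε → γ ≤ (∫ ω, fm ω ∂μ) + 2 * ε := by
    intro ε hε
    set B : ℕ → Set Ω := fun K => {ω | ∀ n : ℕ, 1 ≤ n → n ≤ K → (n : ℝ) * (fm ω + ε) < f n ω} with hB
    have hBm : ∀ K, MeasurableSet (B K) := by
      intro K
      simp only [hB, Set.ofPred_forall]
      refine MeasurableSet.iInter fun n => MeasurableSet.iInter fun _ => MeasurableSet.iInter fun _ => ?_
      exact measurableSet_lt (measurable_const.mul (hfm_meas.add_const ε)) (hf n)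
    have hBanti : Antitone B := by
      intro K K' hKK' ω hω n hn hnK
      exact hω n hn (hnK.trans hKK')
    have hBnull : μ (⋂ K, B K) = 0 := by
      rw [← nonpos_iff_eq_zero]
      have : μ {ω | ¬ G ω} = 0 := hG
      rw [← this]
      refine measure_mono ?_
      intro ω hω
      simp only [Set.mem_iInter] at hω
      simp only [Set.mem_ofPred_eq]
      intro hGω
      have hfr : ∃ᶠ n : ℕ in atTop, f n ω / n < fm ω + ε :=
        frequently_lt_of_liminf_lt (KA_bd_le (hG0 ω hGω)).isCoboundedUnder_ge (by simp only [hfm]; linarith)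
      obtain ⟨n, hn1, hn2⟩ := (hfr.and_eventually (eventually_ge_atTop 1)).exists
      have hn' : (0 : ℝ) < n := by exact_mod_cast hn2
      have h1 := hω n n hn2 le_rfl
      rw [div_lt_iff₀ hn'] at hn1
      linarith
    have hBt : Tendsto (fun K => μ (B K)) atTop (𝓝 0) := by
      rw [← hBnull]
      exact tendsto_measure_iInter_atTop (fun K => (hBm K).nullMeasurableSet) hBanti ⟨0, measure_ne_top _ _⟩
    have hεpos : (0 : ENNReal) < ENNReal.ofReal ε := ENNReal.ofReal_pos.mpr hε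
    obtain ⟨K, hK1, hK⟩ := ((hBt.eventually (gt_mem_nhds hεpos)).and (eventually_ge_atTop 1)).exists
    have hμB : (μ (B K)).toReal ≤ ε := by
      refine ENNReal.toReal_le_of_le_ofReal hε.le hK1.le
    set h : Ω → ℝ := fun ω => (if ω ∈ B K then 1 else fm ω) + ε with hh
    have hh_meas : Measurable h := (Measurable.ite (hBm K) measurable_const hfm_meas).add_const ε
    have hge : ∀ ω, G ω → fm ω + ε ≤ h ω := by
      intro ω hω
      simp only [hh]
      split_ifs
      · linarith [(hfm01 ω hω).2]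
      · exact le_rfl
    have hcov := KA_cover θ f G hGθ hG0 hGs h (fun ω hω => by
        have := hge ω hω
        linarith [(hfm01 ω hω).1]) K (by
        intro ω hω
        by_cases hωB : ω ∈ B K
        · refine ⟨1, le_rfl, hK, ?_⟩
          simp only [Finset.sum_range_one, Function.iterate_zero, id_eq, hh, if_pos hωB]
          have := (hG0 ω hω 1).2
          push_cast at this
          linarith
        · simp only [hB, Set.mem_ofPred_eq, not_forall, not_lt] at hωB
          obtain ⟨n, hn1, hnK, hn⟩ := hωB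
          refine ⟨n, hn1, hnK, hn.trans ?_⟩
          have e0 := Finset.card_nsmul_le_sum (Finset.range n) (fun j => h (θ^[j] ω)) (fm ω + ε) (fun j _ => ?_)
          · rw [nsmul_eq_mul, Finset.card_range] at e0
            exact e0
          have e1 := hfmj j ω hω
          have e2 := hge _ (hGj j ω hω)
          linarith)
    have hh_int : Integrable h μ := by
      refine Integrable.of_bound hh_meas.aestronglyMeasurable (1 + ε) ?_
      filter_upwards [hG] with ω hω
      rw [Real.norm_eq_abs, abs_le]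
      have h1 := hfm01 ω hω
      simp only [hh]
      split_ifs <;> constructor <;> linarith
    have hhj : ∀ j, Integrable (fun ω => h (θ^[j] ω)) μ := fun j =>
      (hθ.iterate j).integrable_comp_of_integrable hh_int
    have hhj' : ∀ j, ∫ ω, h (θ^[j] ω) ∂μ = ∫ ω, h ω ∂μ := by
      intro j
      have := integral_map (μ := μ) (φ := θ^[j]) (f := h) (hθ.iterate j).measurable.aemeasurable
        hh_meas.aestronglyMeasurable
      rw [(hθ.iterate j).map_eq] at this
      exact this.symm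
    have hfint : ∀ n, Integrable (f n) μ := by
      intro n
      refine Integrable.of_bound (hf n).aestronglyMeasurable n ?_
      filter_upwards [hG] with ω hω
      rw [Real.norm_eq_abs, abs_le]
      have := hG0 ω hω n
      constructor <;> linarith [this.1, this.2]
    have hint : ∀ n : ℕ, γ * n ≤ n * (∫ ω, h ω ∂μ) + K := by
      intro n
      refine (hγ n).trans ?_
      have hI : Integrable (fun ω => ∑ j ∈ range n, h (θ^[j] ω)) μ := integrable_finsetSum _ fun j _ => hhj j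
      calc ∫ ω, f n ω ∂μ ≤ ∫ ω, (∑ j ∈ range n, h (θ^[j] ω) + K) ∂μ := by
            refine integral_mono_ae (hfint n) (hI.add (integrable_const _)) ?_
            filter_upwards [hG] with ω hω
            exact hcov n ω hω
        _ = n * (∫ ω, h ω ∂μ) + K := by
            rw [integral_add hI (integrable_const _), integral_finsetSum _ fun j _ => hhj j]
            simp [hhj']
    have hle : γ ≤ ∫ ω, h ω ∂μ := by
      by_contra hlt
      push Not at hlt
      obtain ⟨n, hn⟩ := exists_nat_gt (K / (γ - ∫ ω, h ω ∂μ))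
      rw [div_lt_iff₀ (by linarith)] at hn
      have := hint n
      nlinarith
    refine hle.trans ?_
    have h1 : ∫ ω, h ω ∂μ ≤ ∫ ω, (fm ω + ((B K).indicator (fun _ => (1 : ℝ)) ω + ε)) ∂μ := by
      refine integral_mono_ae hh_int ?_ ?_
      · exact hfm_int.add (((integrable_const (1 : ℝ)).indicator (hBm K)).add (integrable_const _))
      · filter_upwards [hG] with ω hω
        simp only [hh, Set.indicator_apply]
        split_ifs
        · linarith [(hfm01 ω hω).1]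
        · linarith
    refine h1.trans ?_
    have i1 : Integrable (fun ω => (B K).indicator (fun _ => (1 : ℝ)) ω) μ :=
      (integrable_const (1 : ℝ)).indicator (hBm K)
    have i2 : Integrable (fun ω => (B K).indicator (fun _ => (1 : ℝ)) ω + ε) μ :=
      i1.add (integrable_const ε)
    have e1 : ∫ ω, (fm ω + ((B K).indicator (fun _ => (1 : ℝ)) ω + ε)) ∂μ =
        (∫ ω, fm ω ∂μ) + ∫ ω, ((B K).indicator (fun _ => (1 : ℝ)) ω + ε) ∂μ := integral_add hfm_int i2
    have e2 : ∫ ω, ((B K).indicator (fun _ => (1 : ℝ)) ω + ε) ∂μ =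
        (∫ ω, (B K).indicator (fun _ => (1 : ℝ)) ω ∂μ) + ∫ _, ε ∂μ := integral_add i1 (integrable_const ε)
    have e3 : ∫ ω, (B K).indicator (fun _ => (1 : ℝ)) ω ∂μ = (μ (B K)).toReal := by
      rw [integral_indicator_const _ (hBm K)]
      simp [measureReal_def]
    have e4 : ∫ _, ε ∂μ = ε := by simp
    rw [e1, e2, e3, e4]
    linarith
  have hγle : γ ≤ ∫ ω, fm ω ∂μ := by
    refine le_of_forall_pos_le_add fun ε hε => ?_
    have := key (ε / 2) (by linarith)
    linarith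
  have hfmle : ∀ᵐ ω ∂μ, fm ω ≤ γ := by
    filter_upwards [hG, hup] with ω hω hωu
    exact (liminf_le_limsup (KA_bd_le (hG0 ω hω)) (KA_bd_ge (hG0 ω hω))).trans hωu
  have hnn : 0 ≤ᵐ[μ] fun ω => γ - fm ω := by
    filter_upwards [hfmle] with ω hω
    simp only [Pi.zero_apply]
    linarith
  have hz : ∫ ω, (γ - fm ω) ∂μ = 0 := by
    refine le_antisymm ?_ (integral_nonneg_of_ae hnn)
    rw [integral_sub (integrable_const _) hfm_int]
    have e4 : ∫ _, γ ∂μ = γ := by simp
    rw [e4]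
    linarith
  rw [integral_eq_zero_iff_of_nonneg_ae hnn ((integrable_const _).sub hfm_int)] at hz
  filter_upwards [hG, hup, hz] with ω hω hωu hωz
  have hωz' : γ - fm ω = 0 := hωz
  refine tendsto_of_le_liminf_of_limsup_le ?_ hωu (KA_bd_le (hG0 ω hω)) (KA_bd_ge (hG0 ω hω))
  show γ ≤ fm ω
  linarith

theorem kingman_lower {Ω : Type*} [MeasurableSpace Ω] (μ : Measure Ω) [IsProbabilityMeasure μ] (θ : Ω → Ω)
    (hθ : MeasurePreserving θ μ μ) (f : ℕ → Ω → ℝ) (hf : ∀ n, Measurable (f n))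
    (h0 : ∀ᵐ ω ∂μ, ∀ n, 0 ≤ f n ω ∧ f n ω ≤ n)
    (hsub : ∀ᵐ ω ∂μ, ∀ m n, f (m + n) ω ≤ f m ω + f n (θ^[m] ω))
    (_hinv : ∀ᵐ ω ∂μ, ∀ n, f n (θ ω) ≤ f (n + 1) ω + 1) (γ : ℝ) (hγ : ∀ n : ℕ, γ * n ≤ ∫ ω, f n ω ∂μ)
    (hup : ∀ᵐ ω ∂μ, limsup (fun n : ℕ => f n ω / n) atTop ≤ γ) :
    ∀ᵐ ω ∂μ, Tendsto (fun n : ℕ => f n ω / n) atTop (𝓝 γ) :=
  KA_main μ θ hθ f hf h0 hsub γ hγ hup

end KA

end Pool.Agent.helper66.LE
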