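import Pool.Agent.helper37.LE.KA
import Pool.Agent.helper37.LE.MS

/-!
# lf:KB  existence of the time constant
-/

open Finset Classical MeasureTheory Filter Topology ProbabilityTheory

namespace Pool.Agent.helper66.LE

section KB
variable {d : ℕ} {p : ℝ}

/-! ### translations -/

theorem KB_adj (a : Fin d → ℤ) {x y : Fin d → ℤ} : (zd d).Adj (x + a) (y + a) ↔ (zd d).Adj x y := by
  rw [MS_adj_def, MS_adj_def]
  simp only [Pi.add_apply, add_sub_add_right_eq_sub]

/-- translation of an edge. -/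
def KB_tr (a : Fin d → ℤ) (e : (zd d).edgeSet) : (zd d).edgeSet :=
  ⟨Sym2.map (· + a) e.1, by
    obtain ⟨e, he⟩ := e
    induction e using Sym2.ind with
    | _ x y => exact (KB_adj a).mpr he⟩

theorem KB_tr_tr (a b : Fin d → ℤ) (e : (zd d).edgeSet) : KB_tr b (KB_tr a e) = KB_tr (a + b) e := by
  apply Subtype.ext
  simp only [KB_tr, Sym2.map_map]
  congr 1
  funext x
  simp [add_assoc]

theorem KB_tr_zero (e : (zd d).edgeSet) : KB_tr 0 e = e := by
  apply Subtype.ext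
  simp only [KB_tr, add_zero]
  exact congrFun Sym2.map_id' e.1

theorem KB_tr_inj (a : Fin d → ℤ) : Function.Injective (KB_tr (d := d) a) := by
  intro e e' h
  have := congrArg (KB_tr (-a)) h
  simpa [KB_tr_tr, KB_tr_zero] using this

/-- shift of the environment. -/
def KB_sh (a : Fin d → ℤ) (ω : Env d) : Env d := fun e => ω (KB_tr a e)

theorem KB_sh_sh (a b : Fin d → ℤ) (ω : Env d) : KB_sh a (KB_sh b ω) = KB_sh (a + b) ω := by
  funext e
  simp only [KB_sh, KB_tr_tr]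

theorem KB_sh_zero (ω : Env d) : KB_sh 0 ω = ω := by
  funext e
  simp only [KB_sh, KB_tr_zero]

theorem KB_mp (h0 : 0 ≤ p) (h1 : p ≤ 1) (a : Fin d → ℤ) : MeasurePreserving (KB_sh a) (law d p) (law d p) := by
  have := bern_prob h0 h1
  refine ⟨measurable_pi_iff.mpr fun e => measurable_pi_apply _, ?_⟩
  exact Measure.map_infinitePi_infinitePi_of_inj (P := fun _ : (zd d).edgeSet => bern p) (KB_tr_inj a)

theorem KB_len (a : Fin d → ℤ) (ω : Env d) {x y : Fin d → ℤ} (γ : (zd d).Walk x y) :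
    ∃ δ : (zd d).Walk (x + a) (y + a), len (KB_sh a ω) γ = len ω δ := by
  induction γ with
  | nil => exact ⟨SimpleGraph.Walk.nil, by rw [MS_len_nil, MS_len_nil]⟩
  | @cons u v w h γ ih =>
    obtain ⟨δ, hδ⟩ := ih
    refine ⟨SimpleGraph.Walk.cons ((KB_adj a).mpr h) δ, ?_⟩
    rw [MS_len_cons, MS_len_cons, hδ]
    rfl

theorem KB_T_le (a : Fin d → ℤ) {ω : Env d} (hω : ∀ e, 0 ≤ ω e) (x y : Fin d → ℤ) :
    T ω (x + a) (y + a) ≤ T (KB_sh a ω) x y := by
  refine le_ciInf fun γ => ?_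
  obtain ⟨δ, hδ⟩ := KB_len a ω γ
  rw [hδ]
  exact MS_T_le_len hω δ

/-! ### passage times restricted to slabs -/

theorem KB_support [NeZero d] {x y : Fin d → ℤ} (γ : (zd d).Walk x y) :
    ∀ v ∈ γ.support, |v 0 - x 0| ≤ γ.length := by
  induction γ with
  | nil => intro v hv; simp at hv; simp [hv]
  | @cons u v w h γ ih =>
    intro z hz
    rw [SimpleGraph.Walk.support_cons, List.mem_cons] at hz
    rw [SimpleGraph.Walk.length_cons]
    rcases hz with rfl | hz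
    · simp only [sub_self, abs_zero]; positivity
    · have h1 := ih z hz
      have h2 : |u 0 - v 0| ≤ 1 := by
        rw [← MS_adj_def.mp h]
        exact Finset.single_le_sum (f := fun j => |u j - v j|) (fun _ _ => abs_nonneg _) (Finset.mem_univ 0)
      push_cast
      have h3 : |z 0 - u 0| ≤ |z 0 - v 0| + |u 0 - v 0| := by
        have := abs_sub_le (z 0) (v 0) (u 0)
        rw [abs_sub_comm (v 0) (u 0)] at this
        exact this
      linarith

/-- passage time from `0` to `m e₀` by paths in the slab `|v 0| ≤ R`. -/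
noncomputable def KB_N [NeZero d] (R m : ℕ) (ω : Env d) : ℝ :=
  ⨅ γ : {γ : (zd d).Walk 0 (Pi.single 0 (m : ℤ)) // ∀ v ∈ γ.support, |v 0| ≤ (R : ℤ)}, len ω γ.1

theorem KB_straight [NeZero d] (m : ℕ) :
    ∃ γ : (zd d).Walk 0 (Pi.single 0 (m : ℤ)), γ.length = m := by
  have := MS_walk_single (0 : Fin d → ℤ) 0 m
  rwa [zero_add] at this

theorem KB_straight_slab [NeZero d] {m R : ℕ} (h : m ≤ R) :
    ∃ γ : {γ : (zd d).Walk 0 (Pi.single 0 (m : ℤ)) // ∀ v ∈ γ.support, |v 0| ≤ (R : ℤ)}, γ.1.length = m := by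
  obtain ⟨γ, hγ⟩ := KB_straight (d := d) m
  refine ⟨⟨γ, fun v hv => ?_⟩, hγ⟩
  have := KB_support γ v hv
  simp only [Pi.zero_apply, sub_zero] at this
  rw [hγ] at this
  have h2 : (m : ℤ) ≤ R := by exact_mod_cast h
  exact this.trans h2

theorem KB_N_le_len [NeZero d] {R m : ℕ} {ω : Env d} (hω : ∀ e, 0 ≤ ω e)
    (γ : {γ : (zd d).Walk 0 (Pi.single 0 (m : ℤ)) // ∀ v ∈ γ.support, |v 0| ≤ (R : ℤ)}) :
    KB_N R m ω ≤ len ω γ.1 :=
  ciInf_le ⟨0, by rintro _ ⟨δ, rfl⟩; exact MS_len_nonneg hω δ.1⟩ γ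

theorem KB_T_le_N [NeZero d] {R m : ℕ} (h : m ≤ R) {ω : Env d} (hω : ∀ e, 0 ≤ ω e) :
    T ω 0 (Pi.single 0 (m : ℤ)) ≤ KB_N R m ω := by
  have : Nonempty {γ : (zd d).Walk 0 (Pi.single 0 (m : ℤ)) // ∀ v ∈ γ.support, |v 0| ≤ (R : ℤ)} :=
    ⟨(KB_straight_slab h).choose⟩
  exact le_ciInf fun γ => MS_T_le_len hω γ.1

theorem KB_N_le [NeZero d] {R m : ℕ} (h : m ≤ R) {ω : Env d} (hω : ∀ e, 0 ≤ ω e) (hω1 : ∀ e, ω e ≤ 1) :
    KB_N R m ω ≤ m := by
  obtain ⟨γ, hγ⟩ := KB_straight_slab (d := d) h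
  refine (KB_N_le_len hω γ).trans ((MS_len_le_length hω1 γ.1).trans ?_)
  exact le_of_eq (congrArg Nat.cast hγ)

theorem KB_N_nonneg [NeZero d] {R m : ℕ} {ω : Env d} (hω : ∀ e, 0 ≤ ω e) : 0 ≤ KB_N R m ω :=
  Real.iInf_nonneg fun γ => MS_len_nonneg hω γ.1

theorem KB_T_le_nat [NeZero d] (m : ℕ) {ω : Env d} (hω : ∀ e, 0 ≤ ω e) (hω1 : ∀ e, ω e ≤ 1) :
    T ω 0 (Pi.single 0 (m : ℤ)) ≤ m :=
  (KB_T_le_N le_rfl hω).trans (KB_N_le le_rfl hω hω1)

theorem KB_N_tendsto [NeZero d] (m : ℕ) {ω : Env d} (hω : ∀ e, 0 ≤ ω e) :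
    Tendsto (fun R => KB_N R m ω) atTop (𝓝 (T ω 0 (Pi.single 0 (m : ℤ)))) := by
  rw [tendsto_order]
  constructor
  · intro a ha
    filter_upwards [eventually_ge_atTop m] with R hR
    exact ha.trans_le (KB_T_le_N hR hω)
  · intro a ha
    obtain ⟨γ, hγ⟩ := exists_lt_of_ciInf_lt ha
    filter_upwards [eventually_ge_atTop γ.length] with R hR
    refine lt_of_le_of_lt (KB_N_le_len hω ⟨γ, fun v hv => ?_⟩) hγ
    have := KB_support γ v hv
    simp only [Pi.zero_apply, sub_zero] at this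
    have h2 : (γ.length : ℤ) ≤ R := by exact_mod_cast hR
    exact this.trans h2

theorem KB_measurable_N [NeZero d] (R m : ℕ) : Measurable (fun ω : Env d => KB_N R m ω) := by
  unfold KB_N
  exact Measurable.iInf fun γ => MS_measurable_len γ.1

/-! ### locality and independence -/

/-- edges in the slab `|v 0 - c| ≤ R`. -/
def KB_slab [NeZero d] (c : ℤ) (R : ℕ) : Set (zd d).edgeSet := {e | ∀ v ∈ e.1, |v 0 - c| ≤ (R : ℤ)}

/-- the environment restricted to the set `S` of edges. -/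
noncomputable def KB_res (S : Set (zd d).edgeSet) (ω : Env d) : Env d := fun e => if e ∈ S then ω e else 0

theorem KB_len_congr {ω ω' : Env d} {x y : Fin d → ℤ} (γ : (zd d).Walk x y)
    (h : ∀ a ∈ γ.darts, ω ⟨a.edge, a.edge_mem⟩ = ω' ⟨a.edge, a.edge_mem⟩) : len ω γ = len ω' γ := by
  rw [len, len, List.map_congr_left h]

theorem KB_N_local [NeZero d] (R m : ℕ) (c : ℤ) (ω : Env d) :
    KB_N R m (KB_sh (Pi.single 0 c) ω) = KB_N R m (KB_sh (Pi.single 0 c) (KB_res (KB_slab c R) ω)) := by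
  rw [KB_N, KB_N]
  congr 1
  funext γ
  refine KB_len_congr γ.1 fun a ha => ?_
  have h1 := γ.2 _ (γ.1.dart_fst_mem_support_of_mem_darts ha)
  have h2 := γ.2 _ (γ.1.dart_snd_mem_support_of_mem_darts ha)
  have hmem : KB_tr (Pi.single 0 c) ⟨a.edge, a.edge_mem⟩ ∈ KB_slab (d := d) c R := by
    simp only [KB_slab, Set.mem_ofPred_eq, KB_tr]
    intro v hv
    rw [Sym2.mem_map] at hv
    obtain ⟨u, hu, rfl⟩ := hv
    have h3 : u = a.fst ∨ u = a.snd := by
      have : u ∈ s(a.fst, a.snd) := hu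
      rwa [Sym2.mem_iff] at this
    simp only [Pi.add_apply, Pi.single_eq_same, add_sub_cancel_right]
    rcases h3 with rfl | rfl
    · exact h1
    · exact h2
  simp only [KB_sh, KB_res, if_pos hmem]

theorem KB_comap_le (S : Set (zd d).edgeSet) :
    MeasurableSpace.comap (KB_res (d := d) S) inferInstance ≤
      ⨆ e ∈ S, MeasurableSpace.comap (fun ω : Env d => ω e) inferInstance := by
  rw [← measurable_iff_comap_le]
  refine @measurable_pi_lambda (Env d) (zd d).edgeSet (fun _ => ℝ)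
    (⨆ e ∈ S, MeasurableSpace.comap (fun ω : Env d => ω e) inferInstance) _ (KB_res S) fun e => ?_
  by_cases he : e ∈ S
  · simp only [KB_res, if_pos he]
    rw [measurable_iff_comap_le]
    exact le_iSup₂_of_le e he le_rfl
  · simp only [KB_res, if_neg he]
    exact measurable_const

theorem KB_indep (h0 : 0 ≤ p) (h1 : p ≤ 1) {S S' : Set (zd d).edgeSet} (h : Disjoint S S') :
    IndepFun (KB_res S) (KB_res S') (law d p) := by
  have := bern_prob h0 h1
  have hi : iIndepFun (fun (e : (zd d).edgeSet) (ω : Env d) => ω e) (law d p) :=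
    iIndepFun_infinitePi (P := fun _ : (zd d).edgeSet => bern p) (X := fun _ x => x) (fun _ => measurable_id)
  rw [IndepFun_iff_Indep]
  have h2 := indep_iSup_of_disjoint (m := fun e => MeasurableSpace.comap (fun ω : Env d => ω e) inferInstance)
    (fun e => (measurable_pi_apply e).comap_le) hi.iIndep h
  exact indep_of_indep_of_le h2 (KB_comap_le S) (KB_comap_le S')

theorem KB_slab_disjoint [NeZero d] {c c' : ℤ} {R : ℕ} (h : 2 * (R : ℤ) < |c - c'|) :
    Disjoint (KB_slab (d := d) c R) (KB_slab c' R) := by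
  rw [Set.disjoint_left]
  rintro ⟨e, he⟩ h1 h2
  induction e using Sym2.ind with
  | _ x y =>
    have h3 := h1 x (Sym2.mem_mk_left x y)
    have h4 := h2 x (Sym2.mem_mk_left x y)
    have h5 : |c - c'| ≤ |x 0 - c| + |x 0 - c'| := by
      have := abs_sub_le c (x 0) c'
      rw [abs_sub_comm c (x 0)] at this
      exact this
    linarith

/-! ### the strong law -/

theorem KB_slln [NeZero d] (h0 : 0 ≤ p) (h1 : p ≤ 1) {R m M : ℕ} (hR : m ≤ R) (hM : 2 * R < M) :
    ∀ᵐ ω ∂(law d p), Tendsto (fun n : ℕ => (∑ k ∈ range n, KB_N R m (KB_sh (Pi.single 0 ((k * M : ℕ) : ℤ)) ω)) / n)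
      atTop (𝓝 (∫ ω, KB_N R m ω ∂(law d p))) := by
  have := law_prob (d := d) h0 h1
  have hint : Integrable (fun ω : Env d => KB_N R m ω) (law d p) := by
    refine Integrable.of_bound (KB_measurable_N R m).aestronglyMeasurable m ?_
    filter_upwards [ae_zero_one h0 h1] with ω hω
    have hω0 : ∀ e, 0 ≤ ω e := fun e => by rcases hω e with h | h <;> rw [h]; norm_num
    have hω1 : ∀ e, ω e ≤ 1 := fun e => by rcases hω e with h | h <;> rw [h]; norm_num
    rw [Real.norm_eq_abs, abs_of_nonneg (KB_N_nonneg hω0)]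
    exact KB_N_le hR hω0 hω1
  have key := strong_law_ae_real (μ := law d p)
    (fun k ω => KB_N R m (KB_sh (Pi.single 0 ((k * M : ℕ) : ℤ)) ω)) ?_ ?_ ?_
  · have h2 : (fun ω : Env d => KB_N R m (KB_sh (Pi.single 0 ((0 * M : ℕ) : ℤ)) ω)) = fun ω => KB_N R m ω := by
      funext ω
      simp [KB_sh_zero]
    rw [h2] at key
    exact key
  · exact (KB_mp h0 h1 _).integrable_comp_of_integrable hint
  · intro k k' hkk'
    have hd : Disjoint (KB_slab (d := d) ((k * M : ℕ) : ℤ) R) (KB_slab ((k' * M : ℕ) : ℤ) R) := by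
      refine KB_slab_disjoint ?_
      have h3 : ((k * M : ℕ) : ℤ) - ((k' * M : ℕ) : ℤ) = (k - k' : ℤ) * M := by push_cast; ring
      rw [h3, abs_mul, Nat.abs_cast]
      have h4 : 1 ≤ |(k : ℤ) - k'| := Int.one_le_abs (by omega)
      have h5 : (2 * (R : ℤ)) < M := by exact_mod_cast hM
      nlinarith
    have hI := KB_indep h0 h1 hd
    have hc : ∀ j : ℕ, (fun ω : Env d => KB_N R m (KB_sh (Pi.single 0 ((j * M : ℕ) : ℤ)) ω)) =
        (fun ω : Env d => KB_N R m (KB_sh (Pi.single 0 ((j * M : ℕ) : ℤ)) ω)) ∘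
          (KB_res (KB_slab ((j * M : ℕ) : ℤ) R)) := by
      intro j
      funext ω
      exact KB_N_local R m _ ω
    simp only [Function.onFun]
    rw [hc k, hc k']
    exact hI.comp ((KB_measurable_N R m).comp (KB_mp (p := p) h0 h1 _).measurable)
      ((KB_measurable_N R m).comp (KB_mp (p := p) h0 h1 _).measurable)
  · intro k
    have hk : ∀ j : ℕ, Measure.map (fun ω : Env d => KB_N R m (KB_sh (Pi.single 0 ((j * M : ℕ) : ℤ)) ω)) (law d p) =
        Measure.map (fun ω => KB_N R m ω) (law d p) := by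
      intro j
      have h3 := Measure.map_map (μ := law d p) (KB_measurable_N (d := d) R m)
        (KB_mp h0 h1 (Pi.single 0 ((j * M : ℕ) : ℤ))).measurable
      rw [(KB_mp h0 h1 (Pi.single 0 ((j * M : ℕ) : ℤ))).map_eq] at h3
      exact h3.symm
    exact ⟨((KB_measurable_N R m).comp (KB_mp (p := p) h0 h1 _).measurable).aemeasurable,
      ((KB_measurable_N R m).comp (KB_mp (p := p) h0 h1 _).measurable).aemeasurable, by rw [hk k, hk 0]⟩

/-! ### upper bound -/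

theorem KB_single_add [NeZero d] (m n : ℕ) :
    (Pi.single 0 ((m + n : ℕ) : ℤ) : Fin d → ℤ) = Pi.single 0 (n : ℤ) + Pi.single 0 (m : ℤ) := by
  rw [← Pi.single_add]
  congr 1
  push_cast
  ring

theorem KB_sub [NeZero d] {ω : Env d} (hω : ∀ e, 0 ≤ ω e) (m n : ℕ) :
    T ω 0 (Pi.single 0 ((m + n : ℕ) : ℤ)) ≤
      T ω 0 (Pi.single 0 (m : ℤ)) + T (KB_sh (Pi.single 0 (m : ℤ)) ω) 0 (Pi.single 0 (n : ℤ)) := by
  have h1 := MS_T_triangle hω 0 (Pi.single 0 (m : ℤ)) (Pi.single 0 ((m + n : ℕ) : ℤ))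
  have h2 := KB_T_le (Pi.single 0 (m : ℤ)) hω 0 (Pi.single 0 (n : ℤ))
  rw [zero_add, ← KB_single_add] at h2
  linarith

theorem KB_sub_sum [NeZero d] {ω : Env d} (hω : ∀ e, 0 ≤ ω e) (m q : ℕ) :
    T ω 0 (Pi.single 0 ((q * m : ℕ) : ℤ)) ≤
      ∑ k ∈ range q, T (KB_sh (Pi.single 0 ((k * m : ℕ) : ℤ)) ω) 0 (Pi.single 0 (m : ℤ)) := by
  induction q with
  | zero =>
    simp only [Finset.range_zero, Finset.sum_empty, zero_mul, Nat.cast_zero, Pi.single_zero]
    have := MS_T_le_len hω (SimpleGraph.Walk.nil : (zd d).Walk 0 0)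
    rwa [MS_len_nil] at this
  | succ q ih =>
    rw [Finset.sum_range_succ, Nat.succ_mul]
    have := KB_sub hω (q * m) m
    linarith

theorem KB_sh_nonneg {ω : Env d} (hω : ∀ e, 0 ≤ ω e) (a : Fin d → ℤ) : ∀ e, 0 ≤ KB_sh a ω e := fun _ => hω _

theorem KB_sh_le {ω : Env d} (hω : ∀ e, ω e ≤ 1) (a : Fin d → ℤ) : ∀ e, KB_sh a ω e ≤ 1 := fun _ => hω _

theorem KB_up [NeZero d] (h0 : 0 ≤ p) (h1 : p ≤ 1) {R m : ℕ} (hm : 1 ≤ m) (hR : m ≤ R) :
    ∀ᵐ ω ∂(law d p), limsup (fun n : ℕ => T ω 0 (Pi.single 0 (n : ℤ)) / n) atTop ≤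
      (∫ ω, KB_N R m ω ∂(law d p)) / m := by
  set r := 2 * R + 1 with hr
  set M := r * m with hMdef
  have hM : 2 * R < M := by
    rw [hMdef, hr]; nlinarith
  have hM1 : 1 ≤ M := by omega
  have hM0 : (0 : ℝ) < M := by exact_mod_cast hM1
  have hm0 : (0 : ℝ) < m := by exact_mod_cast hm
  have hr0 : (0 : ℝ) < r := by rw [hr]; positivity
  have hall : ∀ᵐ ω ∂(law d p), ∀ c : ℕ, Tendsto (fun n : ℕ =>
      (∑ k ∈ range n, KB_N R m (KB_sh (Pi.single 0 ((k * M : ℕ) : ℤ)) (KB_sh (Pi.single 0 ((c * m : ℕ) : ℤ)) ω))) / n)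
      atTop (𝓝 (∫ ω, KB_N R m ω ∂(law d p))) := by
    rw [ae_all_iff]
    intro c
    exact (KB_mp h0 h1 (Pi.single 0 ((c * m : ℕ) : ℤ))).quasiMeasurePreserving.ae (KB_slln h0 h1 hR hM)
  filter_upwards [hall, ae_zero_one h0 h1] with ω hω hω01
  have hω0 : ∀ e, 0 ≤ ω e := fun e => by rcases hω01 e with h | h <;> rw [h]; norm_num
  have hω1 : ∀ e, ω e ≤ 1 := fun e => by rcases hω01 e with h | h <;> rw [h]; norm_num
  set I := ∫ ω, KB_N R m ω ∂(law d p) with hI
  -- the sums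
  set Sg : ℕ → ℝ := fun q => ∑ c ∈ range r, ∑ k ∈ range q,
    KB_N R m (KB_sh (Pi.single 0 ((k * M : ℕ) : ℤ)) (KB_sh (Pi.single 0 ((c * m : ℕ) : ℤ)) ω)) with hSg
  have hSt : Tendsto (fun q : ℕ => Sg q / q) atTop (𝓝 (r * I)) := by
    have h2 : Tendsto (fun q : ℕ => ∑ c ∈ range r, (∑ k ∈ range q,
      KB_N R m (KB_sh (Pi.single 0 ((k * M : ℕ) : ℤ)) (KB_sh (Pi.single 0 ((c * m : ℕ) : ℤ)) ω))) / (q : ℝ))
        atTop (𝓝 (∑ c ∈ range r, I)) := tendsto_finsetSum _ fun c _ => hω c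
    rw [Finset.sum_const, Finset.card_range, nsmul_eq_mul] at h2
    refine h2.congr fun q => ?_
    rw [hSg, Finset.sum_div]
  have hbound : ∀ q : ℕ, T ω 0 (Pi.single 0 ((q * M : ℕ) : ℤ)) ≤ Sg q := by
    intro q
    refine (KB_sub_sum hω0 M q).trans ?_
    rw [hSg]
    simp only
    rw [Finset.sum_comm]
    refine Finset.sum_le_sum fun k _ => ?_
    rw [hMdef]
    refine (KB_sub_sum (KB_sh_nonneg hω0 _) m r).trans ?_
    refine Finset.sum_le_sum fun c _ => ?_
    rw [KB_sh_sh, KB_sh_sh, add_comm]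
    exact KB_T_le_N hR (KB_sh_nonneg hω0 _)
  have hbound2 : ∀ n : ℕ, T ω 0 (Pi.single 0 (n : ℤ)) ≤ Sg (n / M) + M := by
    intro n
    have h3 : n = (n / M) * M + n % M := by rw [mul_comm]; exact (Nat.div_add_mod n M).symm
    have h4 := KB_sub hω0 ((n / M) * M) (n % M)
    rw [← h3] at h4
    have h5 := KB_T_le_nat (n % M) (KB_sh_nonneg hω0 (Pi.single 0 (((n / M) * M : ℕ) : ℤ)))
      (KB_sh_le hω1 (Pi.single 0 (((n / M) * M : ℕ) : ℤ)))
    have h6 : ((n % M : ℕ) : ℝ) ≤ M := by exact_mod_cast (Nat.mod_lt n hM1).le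
    linarith [hbound (n / M)]
  have hS0 : ∀ q, 0 ≤ Sg q := fun q => Finset.sum_nonneg fun c _ => Finset.sum_nonneg fun k _ =>
    KB_N_nonneg (KB_sh_nonneg (KB_sh_nonneg hω0 _) _)
  have hlim : Tendsto (fun n : ℕ => (Sg (n / M) / ((n / M : ℕ) : ℝ) + M / ((n / M : ℕ) : ℝ)) / M) atTop (𝓝 (I / m)) := by
    have hdiv : Tendsto (fun n : ℕ => n / M) atTop atTop := Nat.tendsto_div_const_atTop (by omega)
    have h3 : Tendsto (fun q : ℕ => (Sg q / (q : ℝ) + M / (q : ℝ)) / M) atTop (𝓝 ((r * I + 0) / M)) := by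
      refine (hSt.add ?_).div_const _
      exact tendsto_const_div_atTop_nhds_zero_nat _
    have h4 : (r * I + 0) / (M : ℝ) = I / m := by
      rw [hMdef]
      push_cast
      field_simp
      ring
    rw [h4] at h3
    exact h3.comp hdiv
  have hle : ∀ᶠ n : ℕ in atTop, T ω 0 (Pi.single 0 (n : ℤ)) / n ≤
      (Sg (n / M) / ((n / M : ℕ) : ℝ) + M / ((n / M : ℕ) : ℝ)) / M := by
    filter_upwards [eventually_ge_atTop M] with n hn
    have hq : 1 ≤ n / M := (Nat.one_le_div_iff hM1).mpr hn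
    have hq0 : (0 : ℝ) < ((n / M : ℕ) : ℝ) := by exact_mod_cast hq
    have hn0 : (0 : ℝ) < n := by exact_mod_cast (by omega : 0 < n)
    have h3 : ((n / M : ℕ) : ℝ) * M ≤ n := by exact_mod_cast Nat.div_mul_le_self n M
    rw [← add_div, div_div]
    calc T ω 0 (Pi.single 0 (n : ℤ)) / n ≤ (Sg (n / M) + M) / n :=
          div_le_div_of_nonneg_right (hbound2 n) hn0.le
      _ ≤ (Sg (n / M) + M) / (((n / M : ℕ) : ℝ) * M) :=
          div_le_div_of_nonneg_left (by have := hS0 (n / M); positivity) (by positivity) h3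
  rw [← hlim.limsup_eq]
  refine limsup_le_limsup hle ?_ hlim.isBoundedUnder_le
  refine IsBoundedUnder.isCoboundedUnder_le (isBoundedUnder_of ⟨0, fun n => ?_⟩)
  exact div_nonneg (T_nonneg hω01 _ _) (Nat.cast_nonneg n)

theorem KB_iter [NeZero d] (m : ℕ) (ω : Env d) : (KB_sh (Pi.single 0 1))^[m] ω = KB_sh (Pi.single 0 (m : ℤ)) ω := by
  induction m with
  | zero => simp [KB_sh_zero]
  | succ m ih =>
    rw [Function.iterate_succ_apply', ih, KB_sh_sh, KB_single_add]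
    rw [← Pi.single_add, ← Pi.single_add]
    push_cast
    rw [add_comm]

theorem exists_timeConst [NeZero d] {p : ℝ} (h0 : 0 ≤ p) (h1 : p ≤ 1) : ∃ g, IsTimeConst d p g := by
  have := law_prob (d := d) h0 h1
  set μ := law d p with hμ
  set f : ℕ → Env d → ℝ := fun n ω => T ω 0 (Pi.single 0 (n : ℤ)) with hf
  have hfm : ∀ n, Measurable (f n) := fun n => measurable_T _ _
  have hgood : ∀ ω : Env d, (∀ e, ω e = 0 ∨ ω e = 1) → (∀ e, 0 ≤ ω e) ∧ ∀ e, ω e ≤ 1 := by
    intro ω hω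
    constructor
    · intro e; rcases hω e with h | h <;> rw [h]; norm_num
    · intro e; rcases hω e with h | h <;> rw [h]; norm_num
  have hf0 : ∀ᵐ ω ∂μ, ∀ n, 0 ≤ f n ω ∧ f n ω ≤ n := by
    filter_upwards [ae_zero_one h0 h1] with ω hω n
    exact ⟨T_nonneg hω _ _, KB_T_le_nat n (hgood ω hω).1 (hgood ω hω).2⟩
  have hfint : ∀ n, 0 ≤ ∫ ω, f n ω ∂μ := by
    intro n
    refine integral_nonneg_of_ae ?_
    filter_upwards [hf0] with ω hω
    exact (hω n).1
  set γ : ℝ := ⨅ m : ℕ, (∫ ω, f (m + 1) ω ∂μ) / ((m + 1 : ℕ) : ℝ) with hγ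
  refine ⟨γ, ?_⟩
  have hbdd : BddBelow (Set.range fun m : ℕ => (∫ ω, f (m + 1) ω ∂μ) / ((m + 1 : ℕ) : ℝ)) := by
    refine ⟨0, ?_⟩
    rintro _ ⟨m, rfl⟩
    exact div_nonneg (hfint _) (Nat.cast_nonneg _)
  refine KA_main μ (KB_sh (Pi.single 0 1)) (KB_mp h0 h1 _) f hfm hf0 ?_ γ ?_ ?_
  · filter_upwards [ae_zero_one h0 h1] with ω hω m n
    rw [KB_iter]
    exact KB_sub (hgood ω hω).1 m n
  · intro n
    rcases Nat.eq_zero_or_pos n with rfl | hn
    · simp only [Nat.cast_zero, mul_zero]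
      exact hfint 0
    · obtain ⟨m, rfl⟩ : ∃ m, n = m + 1 := ⟨n - 1, by omega⟩
      have h2 := ciInf_le hbdd m
      have h3 : (0 : ℝ) < ((m + 1 : ℕ) : ℝ) := by positivity
      rw [← hγ, le_div_iff₀ h3] at h2
      exact h2
  · have hall : ∀ᵐ ω ∂μ, ∀ m R : ℕ, 1 ≤ m → m ≤ R →
        limsup (fun n : ℕ => T ω 0 (Pi.single 0 (n : ℤ)) / n) atTop ≤ (∫ ω, KB_N R m ω ∂μ) / m := by
      rw [ae_all_iff]
      intro m
      rw [ae_all_iff]
      intro R
      by_cases hm : 1 ≤ m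
      · by_cases hR : m ≤ R
        · filter_upwards [KB_up (d := d) h0 h1 hm hR] with ω hω _ _
          exact hω
        · exact Eventually.of_forall fun ω _ h => absurd h hR
      · exact Eventually.of_forall fun ω h _ => absurd h hm
    filter_upwards [hall] with ω hω
    refine le_ciInf fun m => ?_
    have ht : Tendsto (fun R : ℕ => (∫ ω, KB_N R (m + 1) ω ∂μ) / ((m + 1 : ℕ) : ℝ)) atTop
        (𝓝 ((∫ ω, f (m + 1) ω ∂μ) / ((m + 1 : ℕ) : ℝ))) := by
      refine Tendsto.div_const ?_ _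
      have h2 : Tendsto (fun R : ℕ => ∫ ω, KB_N (R + (m + 1)) (m + 1) ω ∂μ) atTop
          (𝓝 (∫ ω, f (m + 1) ω ∂μ)) := by
        refine tendsto_integral_of_dominated_convergence (fun _ => ((m + 1 : ℕ) : ℝ))
          (fun R => (KB_measurable_N _ _).aestronglyMeasurable) (integrable_const _) ?_ ?_
        · intro R
          filter_upwards [ae_zero_one h0 h1] with ω hω
          rw [Real.norm_eq_abs, abs_of_nonneg (KB_N_nonneg (hgood ω hω).1)]
          exact KB_N_le (by omega) (hgood ω hω).1 (hgood ω hω).2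
        · filter_upwards [ae_zero_one h0 h1] with ω hω
          exact (tendsto_add_atTop_iff_nat (m + 1)).mpr (KB_N_tendsto (m + 1) (hgood ω hω).1)
      exact (tendsto_add_atTop_iff_nat (m + 1)).mp h2
    refine ge_of_tendsto ht ?_
    filter_upwards [eventually_ge_atTop (m + 1)] with R hR
    exact hω (m + 1) R (by omega) hR

end KB

end Pool.Agent.helper66.LE
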