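import Pool.Agent.helper70.LE.Defs3
import Pool.Agent.helper37.L5.SpecE

/-!
# Project LE (MP_baa4d7_al): `DVZ`, `P1S`, `P1D` and the clause for extensions `P1E` from block L5
-/

set_option autoImplicit false

namespace Pool.Agent.LE

open Pool.Agent.helper58.DC Pool.Agent.DI Pool.Agent.GR Pool.Agent.OB Pool.Agent.DR Pool.Agent.FI Pool.Agent.FI3 Pool.Agent.FI4

theorem DVZ (hDV : Pool.Agent.L5.DV5_stmt) : DVZ_stmt := by
  intro p M hM _ G _ _ D x θ χ hR c hc R hRo hRD z hz hzR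
  exact hDV p M hM G D x θ χ hR c hc R hRo hRD z hz hzR

theorem P1S (hFS : Pool.Agent.L5.FS5_stmt) (hHHE : HHE_stmt) (hBDE : BDE_stmt) : P1S_stmt := by
  intro p M hM hp2 c h hc G _ _ D x θ χ hR hH hz hG
  exact hFS p M hM (HLE p c h) (hHHE p hM.pr c h).1 c hc (hBDE p M hM hp2 c h) G D x θ χ hR hH hz hG

/-- The bound for `HAnd`. -/
theorem P1_bd {p : ℕ} {M : Ideal (integralClosure ℤ ℂ)} {H H' : HP} {q : ℕ} (h : BDH p M H q) : BDH p M (HAnd H H') q :=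
  fun G _ _ D x θ χ hR hH => h G D x θ χ hR hH.1

/-- The heights for `HAnd`. -/
theorem P1_ht {p : ℕ} {M : Ideal (integralClosure ℤ ℂ)} {H H' : HP} (h : HTH p M H') : HTH p M (HAnd H H') :=
  fun G _ _ D x θ χ hR hH => h G D x θ χ hR hH.2

theorem P1D (hFD : Pool.Agent.L5.FD5_stmt) (hHHE : HHE_stmt) (hBDE : BDE_stmt) (hHZH : HZH_stmt) : P1D_stmt := by
  intro p M hM hp2 c h hc G _ _ D x θ χ hR hH hZ hz hG d
  exact hFD p M hM (HAnd (HLE p c h) (HZE p)) (hHHE p hM.pr c h).2.2.2.2.1 c hc (P1_bd (hBDE p M hM hp2 c h))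
    (P1_ht (hHZH p M hM hp2)) G D x θ χ hR ⟨hH, hZ⟩ hz hG d

/-- **P1E** (part 1, extensions). `A = E / G`; `E_B / G` is contained in `⟨t⟩ E[B] / G` and `t ^ n` is in `E[B] / G` (so `E_B / E[B]` is cyclic of order
dividing `n` if `t` is in `E_B / G`), `n` is prime to `p`, `p ^ (v + 1)` does not divide `J2 n`, the exponent of `D` is at least `p ^ (c + v)`. -/
def P1E_stmt : Prop :=
  ∀ (p : ℕ) (M : Ideal (integralClosure ℤ ℂ)), Setup p M → p ≠ 2 → ∀ c h v : ℕ, 1 ≤ c →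
    ∀ (G E A : Type) [Group G] [Group E] [Group A] [Finite G] [Finite E] (X : Extension G E A), IsOp p (⊤ : Subgroup G) ⊥ →
    ∀ (D : Subgroup G) (x : G) (θ χ : G → ℂ), Rt p M D x θ χ → HLE p c h G D (TT M D θ) → (∃ z ∈ D, z ^ p ^ (c + v - 1) ≠ 1) →
    ∀ (t : A) (n : ℕ), 0 < n → ¬ p ∣ n → ¬ p ^ (v + 1) ∣ Pool.Agent.MAPW.J2 n → t ^ n ∈ Pool.Agent.BQ.AI X M χ →
    (∀ a ∈ Pool.Agent.BQ.AB X M χ, ∃ k : ℤ, t ^ k * a ∈ Pool.Agent.BQ.AI X M χ) →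
    (∀ U : Subgroup A, ∑ᶠ d : ℤ, altSum X p M χ d U = 0) ∧
    (HZE p G D (TT M D θ) → ∀ (d : ℤ) (U : Subgroup A), altSum X p M χ d U = 0)

/-- The element `s`. -/
theorem P1_gen {A : Type} [Group A] [Finite A] (I B : Subgroup A) (t : A) (n : ℕ) (ht : t ^ n ∈ I)
    (hB : ∀ a ∈ B, ∃ k : ℤ, t ^ k * a ∈ I) :
    ∃ s : A, (∀ q : ℕ, q.Prime → q ∣ orderOf s → q ∣ n) ∧ ∀ a ∈ B, ∃ k : ℤ, s ^ k * a ∈ I := by
  classical
  have hN : 0 < orderOf t := orderOf_pos t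
  set N := orderOf t with hNdef
  -- the part of `N` prime to `n`
  obtain ⟨m1, m2, hm, h1, h2⟩ : ∃ m1 m2 : ℕ, N = m1 * m2 ∧ (∀ q : ℕ, q.Prime → q ∣ m1 → q ∣ n) ∧ Nat.Coprime m2 n := by
    refine ⟨∏ q ∈ N.primeFactors.filter (fun q => q ∣ n), q ^ N.factorization q,
      ∏ q ∈ N.primeFactors.filter (fun q => ¬ q ∣ n), q ^ N.factorization q, ?_, ?_, ?_⟩
    · rw [Finset.prod_filter_mul_prod_filter_not]
      exact (Nat.prod_factorization_pow_eq_self hN.ne').symm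
    · intro q hq hd
      obtain ⟨r, hr, hqr⟩ := (Prime.dvd_finsetProd_iff hq.prime _).1 hd
      have hr1 := Finset.mem_filter.1 hr
      have hr2 : r.Prime := Nat.prime_of_mem_primeFactors hr1.1
      have h3 : q ∣ r := hq.dvd_of_dvd_pow hqr
      rw [(Nat.prime_dvd_prime_iff_eq hq hr2).1 h3]
      exact hr1.2
    · refine Nat.Coprime.prod_left fun r hr => ?_
      have hr1 := Finset.mem_filter.1 hr
      have hr2 : r.Prime := Nat.prime_of_mem_primeFactors hr1.1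
      exact Nat.Coprime.pow_left _ ((Nat.Prime.coprime_iff_not_dvd hr2).2 hr1.2)
  refine ⟨t ^ m2, ?_, ?_⟩
  · intro q hq hd
    have hm2 : m2 ∣ N := ⟨m1, by rw [hm, mul_comm]⟩
    have hm20 : m2 ≠ 0 := by
      rintro rfl
      rw [hm] at hN
      simp at hN
    have h3 : orderOf (t ^ m2) = m1 := by
      rw [orderOf_pow_of_dvd hm20 hm2, ← hNdef, hm]
      exact Nat.mul_div_cancel _ (Nat.pos_of_ne_zero hm20)
    rw [h3] at hd
    exact h1 q hq hd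
  · intro a ha
    obtain ⟨k, hk⟩ := hB a ha
    have h3 : IsCoprime (m2 : ℤ) (n : ℤ) := Nat.isCoprime_iff_coprime.2 h2
    obtain ⟨u, w, huw⟩ := h3
    refine ⟨u * k, ?_⟩
    have h4 : (m2 : ℤ) * (u * k) = -(n * (w * k)) + k := by
      have h5 : (u * m2 + w * n) * k = k := by rw [huw, one_mul]
      linarith
    rw [← zpow_natCast, ← zpow_mul, h4, zpow_add, mul_assoc]
    refine I.mul_mem ?_ hk
    rw [zpow_neg, zpow_mul, zpow_natCast]
    exact I.inv_mem (I.zpow_mem ht _)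

theorem P1E (hDC : Pool.Agent.L5.DC5_stmt) (hEJ : Pool.Agent.L5.EJ5_stmt) (hHHE : HHE_stmt) (hBDE : BDE_stmt) (hHZH : HZH_stmt) : P1E_stmt := by
  intro p M hM hp2 c h v hc G E A _ _ _ _ _ X hG D x θ χ hR hH hz t n hn hpn hJ ht hB
  have hfA : Finite A := Finite.of_surjective X.proj X.proj_surjective
  obtain ⟨s, hs1, hs2⟩ := P1_gen _ _ t n ht hB
  obtain ⟨h1, h2⟩ := hEJ p n (orderOf s) (v + 1) hM.pr hn (orderOf_pos s) hpn hs1 hJ
  refine ⟨(hDC p M hM (HLE p c h) (hHHE p hM.pr c h).1 c v hc (hBDE p M hM hp2 c h) G E A X hG D x θ χ hR hH hz s h1 h2 hs2).1, fun hZ => ?_⟩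
  exact (hDC p M hM (HAnd (HLE p c h) (HZE p)) (hHHE p hM.pr c h).2.2.2.2.1 c v hc (P1_bd (hBDE p M hM hp2 c h)) G E A X hG D x θ χ hR
    ⟨hH, hZ⟩ hz s h1 h2 hs2).2 (P1_ht (hHZH p M hM hp2))

end Pool.Agent.LE
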